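import Pool.Agent.helper91.RB.Spec2

/-!
# Row rb:EUL (MP_24e2e7_nt): the Euler product of the Dedekind zeta function
-/

set_option autoImplicit false

namespace Pool.Agent.RB

open NumberField IsDedekindDomain Module
open scoped nonZeroDivisors Real Classical Topology

section

variable {K : Type} [Field K] [NumberField K]

/-- `N(I)^(-s)` -/
noncomputable def EUL_f (s : ℂ) (I : Ideal (𝓞 K)) : ℂ := ((Ideal.absNorm I : ℕ) : ℂ) ^ (-s)

theorem EUL_mul (s : ℂ) (I J : Ideal (𝓞 K)) : EUL_f s (I * J) = EUL_f s I * EUL_f s J := by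
  unfold EUL_f
  rw [map_mul, Nat.cast_mul, Complex.natCast_mul_natCast_cpow]

theorem EUL_one (s : ℂ) : EUL_f s (1 : Ideal (𝓞 K)) = 1 := by
  unfold EUL_f
  rw [map_one, Nat.cast_one, Complex.one_cpow]

theorem EUL_pow (s : ℂ) (I : Ideal (𝓞 K)) (e : ℕ) : EUL_f s (I ^ e) = EUL_f s I ^ e := by
  induction e with
  | zero => rw [pow_zero, pow_zero, EUL_one]
  | succ e ih => rw [pow_succ, pow_succ, EUL_mul, ih]

theorem EUL_bot {s : ℂ} (hs : 1 < s.re) : EUL_f s (⊥ : Ideal (𝓞 K)) = 0 := by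
  unfold EUL_f
  rw [Ideal.absNorm_bot, Nat.cast_zero, Complex.zero_cpow]
  intro h
  have h1 := congrArg Complex.re h
  rw [Complex.neg_re, Complex.zero_re] at h1
  linarith

theorem EUL_norm {s : ℂ} (hs : 1 < s.re) (P : HOS K) : ‖EUL_f s P.asIdeal‖ < 1 := by
  unfold EUL_f
  have h2 : 1 < Ideal.absNorm P.asIdeal := by
    have h0 : Ideal.absNorm P.asIdeal ≠ 0 := by
      rw [Ne, Ideal.absNorm_eq_zero_iff]
      exact P.ne_bot
    have h1 : Ideal.absNorm P.asIdeal ≠ 1 := by
      rw [Ne, Ideal.absNorm_eq_one_iff]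
      exact P.isPrime.ne_top
    omega
  rw [Complex.norm_natCast_cpow_of_pos (by omega), Complex.neg_re]
  apply Real.rpow_lt_one_of_one_lt_of_neg
  · exact_mod_cast h2
  · linarith

/-- The ideals all of whose prime factors are in `A`. -/
def EUL_T (A : Finset (HOS K)) : Set (Ideal (𝓞 K)) :=
  {I | I ≠ ⊥ ∧ ∀ P : HOS K, P.asIdeal ∣ I → P ∈ A}

theorem EUL_eq_of_dvd {P Q : HOS K} (h : Q.asIdeal ∣ P.asIdeal) : Q = P := by
  have h1 : P.asIdeal ≤ Q.asIdeal := Ideal.le_of_dvd h
  have h2 : P.asIdeal = Q.asIdeal := P.isMaximal.eq_of_le Q.isPrime.ne_top h1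
  exact (HeightOneSpectrum.ext h2).symm

/-- Splitting off a prime. -/
noncomputable def EUL_map {P : HOS K} {A : Finset (HOS K)} (z : ℕ × EUL_T A) :
    EUL_T (insert P A) :=
  ⟨P.asIdeal ^ z.1 * z.2.1, by
    refine ⟨mul_ne_zero (pow_ne_zero _ P.ne_bot) z.2.2.1, fun Q hQ => ?_⟩
    rcases Q.prime.dvd_or_dvd hQ with h | h
    · have h1 := Q.prime.dvd_of_dvd_pow h
      rw [EUL_eq_of_dvd h1]
      exact Finset.mem_insert_self _ _
    · exact Finset.mem_insert_of_mem (z.2.2.2 Q h)⟩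

theorem EUL_bij {P : HOS K} {A : Finset (HOS K)} (hPA : P ∉ A) :
    Function.Bijective (EUL_map (P := P) (A := A)) := by
  constructor
  · have key : ∀ (e e' : ℕ) (I I' : EUL_T A), e ≤ e' →
        P.asIdeal ^ e * I.1 = P.asIdeal ^ e' * I'.1 → e = e' ∧ I = I' := by
      intro e e' I I' hle h
      obtain ⟨d, rfl⟩ := Nat.exists_eq_add_of_le hle
      rw [pow_add, mul_assoc] at h
      have h1 : I.1 = P.asIdeal ^ d * I'.1 :=
        mul_left_cancel₀ (pow_ne_zero _ P.ne_bot) h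
      rcases d with _ | d
      · refine ⟨rfl, Subtype.ext ?_⟩
        rw [h1, pow_zero, one_mul]
      · exfalso
        apply hPA
        apply I.2.2 P
        rw [h1, pow_succ', mul_assoc]
        exact dvd_mul_right _ _
    rintro ⟨e, I⟩ ⟨e', I'⟩ h
    have h1 : P.asIdeal ^ e * I.1 = P.asIdeal ^ e' * I'.1 := congrArg Subtype.val h
    rcases le_total e e' with hle | hle
    · obtain ⟨h2, h3⟩ := key e e' I I' hle h1
      rw [h2, h3]
    · obtain ⟨h2, h3⟩ := key e' e I' I hle h1.symm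
      rw [h2, h3]
  · rintro ⟨J, hJ0, hJ⟩
    obtain ⟨e, I, hPI, hJI⟩ := WfDvdMonoid.max_power_factor hJ0 P.prime.irreducible
    have hI0 : I ≠ ⊥ := by
      rintro rfl
      exact hPI (dvd_zero _)
    refine ⟨(e, ⟨I, hI0, fun Q hQ => ?_⟩), Subtype.ext hJI.symm⟩
    have h1 : Q.asIdeal ∣ J := by
      rw [hJI]
      exact hQ.mul_left _
    rcases Finset.mem_insert.1 (hJ Q h1) with h2 | h2
    · rw [h2] at hQ
      exact absurd hQ hPI
    · exact h2

theorem EUL_hmul {ι κ : Type} {f : ι → ℂ} {g : κ → ℂ} {a b : ℂ} (hf : HasSum f a)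
    (hg : HasSum g b) : HasSum (fun z : ι × κ => f z.1 * g z.2) (a * b) :=
  hf.mul hg (summable_mul_of_summable_norm hf.summable.norm hg.summable.norm)

theorem EUL_step {s : ℂ} {P : HOS K} {A : Finset (HOS K)} (hPA : P ∉ A) {x : ℂ}
    (hx : HasSum (fun z : ℕ × EUL_T A => EUL_f s P.asIdeal ^ z.1 * EUL_f s z.2.1) x) :
    HasSum (fun I : EUL_T (insert P A) => EUL_f s I.1) x := by
  have h1 : (fun z : ℕ × EUL_T A => EUL_f s P.asIdeal ^ z.1 * EUL_f s z.2.1) =
      (fun I : EUL_T (insert P A) => EUL_f s I.1) ∘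
        (Equiv.ofBijective (EUL_map (P := P) (A := A)) (EUL_bij hPA)) := by
    funext z
    have h2 : EUL_f s (P.asIdeal ^ z.1 * z.2.1) = EUL_f s P.asIdeal ^ z.1 * EUL_f s z.2.1 := by
      rw [EUL_mul, EUL_pow]
    exact h2.symm
  rw [h1] at hx
  exact (Equiv.hasSum_iff (Equiv.ofBijective (EUL_map (P := P) (A := A)) (EUL_bij hPA))).1 hx

theorem EUL_fin {s : ℂ} (hs : 1 < s.re)
    (A : Finset (HOS K)) :
    HasSum (fun I : EUL_T A => EUL_f s I.1) (∏ P ∈ A, (1 - EUL_f s P.asIdeal)⁻¹) := by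
  induction A using Finset.induction_on with
  | empty =>
    rw [Finset.prod_empty]
    have h1 : ∀ I : EUL_T (∅ : Finset (HOS K)), I.1 = 1 := by
      rintro ⟨I, hI0, hI⟩
      by_contra hne
      have hne' : I ≠ ⊤ := by
        rw [← Ideal.one_eq_top]
        exact hne
      obtain ⟨M, hM, hIM⟩ := Ideal.exists_le_maximal I hne'
      have hMb : M ≠ ⊥ := by
        rintro rfl
        exact hI0 (le_bot_iff.1 hIM)
      have h2 := hI ⟨M, hM.isPrime, hMb⟩ (Ideal.dvd_iff_le.2 hIM)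
      exact absurd h2 (Finset.notMem_empty _)
    have h1T : (1 : Ideal (𝓞 K)) ∈ EUL_T (∅ : Finset (HOS K)) := by
      refine ⟨one_ne_zero, fun P hP => ?_⟩
      exact absurd (Ideal.isUnit_iff.1 (isUnit_of_dvd_one hP)) P.isPrime.ne_top
    have h2 := hasSum_single (f := fun I : EUL_T (∅ : Finset (HOS K)) => EUL_f s I.1)
      (⟨1, h1T⟩ : EUL_T (∅ : Finset (HOS K)))
      (fun I hI => absurd (Subtype.ext (h1 I)) hI)
    rwa [show EUL_f s (⟨1, h1T⟩ : EUL_T (∅ : Finset (HOS K))).1 = 1 from EUL_one s] at h2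
  | insert P A hPA ih =>
    rw [Finset.prod_insert hPA]
    have hg : HasSum (fun e : ℕ => EUL_f s P.asIdeal ^ e) (1 - EUL_f s P.asIdeal)⁻¹ :=
      hasSum_geometric_of_norm_lt_one (EUL_norm hs P)
    have hmul := EUL_hmul hg ih
    exact EUL_step hPA hmul

end

theorem EUL (hDZS : DZS_stmt) : EUL_stmt := by
  intro K _ _ s hs
  obtain ⟨hS0, hS1⟩ := hDZS K s hs
  have hsupp : ∀ I : Ideal (𝓞 K),
      I ∉ Set.range (Subtype.val : {I : Ideal (𝓞 K) // I ≠ ⊥} → Ideal (𝓞 K)) →
      EUL_f s I = 0 := by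
    intro I hI
    have h1 : I = ⊥ := by
      by_contra h
      exact hI ⟨⟨I, h⟩, rfl⟩
    rw [h1, EUL_bot hs]
  have hS : Summable (EUL_f (K := K) s) :=
    (Function.Injective.summable_iff Subtype.val_injective hsupp).1 hS0
  have hT : ∑' I, EUL_f (K := K) s I = dedekindZeta K s := by
    rw [← hS1]
    refine (Function.Injective.tsum_eq Subtype.val_injective ?_).symm
    intro I hI
    by_contra h
    exact hI (hsupp I h)
  have hinj : Function.Injective (fun P : HOS K => P.asIdeal) :=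
    fun P Q h => HeightOneSpectrum.ext h
  refine ⟨hS.norm.comp_injective hinj, ?_⟩
  rw [← hT]
  have key : ∀ A : Finset (HOS K), ∏ P ∈ A, (1 - (nm P : ℂ) ^ (-s))⁻¹ =
      ∑' I, (EUL_T A).indicator (EUL_f s) I := by
    intro A
    have h := EUL_fin hs A
    have h2 : HasSum ((EUL_T A).indicator (EUL_f s)) (∏ P ∈ A, (1 - EUL_f s P.asIdeal)⁻¹) :=
      hasSum_subtype_iff_indicator.1 h
    exact h2.tsum_eq.symm
  have hlim : Filter.Tendsto (fun A : Finset (HOS K) => ∑' I, (EUL_T A).indicator (EUL_f s) I)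
      Filter.atTop (𝓝 (∑' I, EUL_f (K := K) s I)) := by
    refine tendsto_tsum_of_dominated_convergence (bound := fun I => ‖EUL_f s I‖) hS.norm ?_ ?_
    · intro I
      by_cases hI : I = ⊥
      · have h1 : ∀ A : Finset (HOS K), (EUL_T A).indicator (EUL_f s) I = EUL_f s I := by
          intro A
          rw [hI]
          by_cases h2 : (⊥ : Ideal (𝓞 K)) ∈ EUL_T A
          · exact Set.indicator_of_mem h2 _
          · rw [Set.indicator_of_notMem h2, EUL_bot hs]
        simp_rw [h1]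
        exact tendsto_const_nhds
      · have hfin := Ideal.finite_factors hI
        refine tendsto_const_nhds.congr' ?_
        filter_upwards [Filter.eventually_ge_atTop hfin.toFinset] with A hA
        refine (Set.indicator_of_mem ?_ _).symm
        exact ⟨hI, fun P hP => hA (hfin.mem_toFinset.2 hP)⟩
    · exact Filter.Eventually.of_forall fun A I => norm_indicator_le_norm_self _ _
  refine (hlim.congr fun A => (key A).symm)

end Pool.Agent.RB
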