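import Pool.Agent.helper91.RB.Spec6
import Pool.Agent.helper68.RB.PRD

/-!
# Row PR2 of project rb (MP_24e2e7_nt): the product of the values `L_{S,T}(χ, 0)` over the odd
characters, with the full power of two (adapted from the row PRD of helper68)
-/

set_option autoImplicit false

namespace Pool.Agent.RB

open NumberField IsDedekindDomain Module
open scoped nonZeroDivisors Real Classical IsMulCommutative

theorem PR2 (hTOW : TOW_stmt) (hZRT : ZRT_stmt) (hVAL : VAL_stmt) : PR2_stmt := by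
  intro F k K _ _ _ _ _ _ _ _ _ _ _ _ _ _ _ c hc hck Lf hLf S T Tk hTk hTy
  have hfin := PRD_finite k K
  refine ⟨hfin, ?_⟩
  -- the value at `0`
  have hdiff : DifferentiableOn ℂ (fun s => ∏ χ ∈ odd c, Lf χ s) {1}ᶜ :=
    DifferentiableOn.fun_finsetProd fun χ _ => (hLf χ).1
  have hV := hVAL k K (fun s => ∏ χ ∈ odd c, Lf χ s) hdiff (by
    intro s hs
    rw [hZRT F k K c hc hck s hs]
    congr 1
    exact Finset.prod_congr rfl fun χ _ => ((hLf χ).2 s hs).symm)
  -- the local factors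
  have hT := fun p => hTOW F k K c hc hck p
  choose f g hf hg hn hnm τ hτ hty hprod using hT
  have hS1 : ∀ p, ∏ χ ∈ odd c, (1 - chv χ p) = (((1 - τ p) ^ g p : ℤ) : ℂ) := by
    intro p
    have h1 := hprod p 1
    rw [one_pow, mul_one] at h1
    push_cast
    rw [← h1]
    exact Finset.prod_congr rfl fun χ _ => by rw [mul_one]
  have hT1 : ∏ p ∈ T, ∏ χ ∈ odd c, (1 - chv χ p * (nm p : ℂ)) =
      ∏ q ∈ Tk, (1 - (ty K q : ℂ) * (nm q : ℂ)) := by
    rw [← Finset.prod_fiberwise_of_maps_to (s := Tk) (t := T) (g := fun q => q.under (𝓞 F))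
      (fun q hq => (hTk q).1 hq)]
    refine Finset.prod_congr rfl fun p hp => ?_
    have h1 : ∀ q ∈ Tk.filter (fun q => q.under (𝓞 F) = p),
        (1 - (ty K q : ℂ) * (nm q : ℂ)) = 1 - (τ p : ℂ) * (nm p : ℂ) ^ f p := by
      intro q hq
      have h2 := (Finset.mem_filter.1 hq).2
      rw [hty p q h2, hnm p q h2]
      push_cast
      ring
    rw [Finset.prod_congr rfl h1, Finset.prod_const, hprod p]
    congr 1
    rw [← hn p, ← Set.ncard_coe_finset]
    congr 1
    ext q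
    simp only [Set.mem_ofPred_eq, Finset.coe_filter]
    exact ⟨fun h => ⟨(hTk q).2 (by rw [h]; exact hp), h⟩, fun h => h.2⟩
  have hT2 : ∏ q ∈ Tk, (1 - (ty K q : ℂ) * (nm q : ℂ)) =
      ((∏ q ∈ Tk, (-ty K q) : ℤ) : ℂ) * ∏ q ∈ Tk, ((nm q : ℂ) - (ty K q : ℂ)) := by
    push_cast
    rw [← Finset.prod_mul_distrib]
    refine Finset.prod_congr rfl fun q hq => ?_
    have h1 : ty K q = 1 ∨ ty K q = -1 := by
      have h2 := hty (q.under (𝓞 F)) q rfl
      rcases hτ (q.under (𝓞 F)) with h3 | h3 | h3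
      · exact Or.inl (h2.trans h3)
      · exact Or.inr (h2.trans h3)
      · exact absurd (h2.trans h3) (hTy q hq)
    rcases h1 with h1 | h1 <;> rw [h1] <;> push_cast <;> ring
  -- the power of two
  have hE : (2 : ℤ) ^ S.card ∣ 2 ^ {q : HOS k | ty K q = 0}.ncard * ∏ p ∈ S, (1 - τ p) ^ g p := by
    have h1 : (2 : ℤ) ^ S.card = (∏ p ∈ S, (if τ p = 0 then 2 else 1)) *
        ∏ p ∈ S, (if τ p = 0 then 1 else 2) := by
      rw [← Finset.prod_mul_distrib, ← Finset.prod_const]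
      refine Finset.prod_congr rfl fun p _ => ?_
      split_ifs <;> norm_num
    rw [h1]
    apply mul_dvd_mul
    · rw [Finset.prod_ite, Finset.prod_const, Finset.prod_const_one, mul_one]
      apply pow_dvd_pow
      have h2 : ∀ p, ∃ q : HOS k, q.under (𝓞 F) = p := by
        intro p
        have h4 : {q : HOS k | q.under (𝓞 F) = p}.Nonempty := by
          apply Set.nonempty_of_ncard_ne_zero
          rw [hn p]
          exact (hg p).ne'
        exact h4
      choose q₀ hq₀ using h2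
      rw [← Set.ncard_coe_finset]
      refine Set.ncard_le_ncard_of_injOn q₀ ?_ ?_ hfin
      · intro p hp
        have h3 : τ p = 0 := (Finset.mem_filter.1 (Finset.mem_coe.1 hp)).2
        exact (hty p (q₀ p) (hq₀ p)).trans h3
      · intro p _ p' _ h
        rw [← hq₀ p, ← hq₀ p', h]
    · refine Finset.prod_dvd_prod_of_dvd _ _ fun p _ => ?_
      have hgp : g p ≠ 0 := (hg p).ne'
      rcases hτ p with h3 | h3 | h3
      · rw [h3, sub_self, zero_pow hgp]
        exact dvd_zero _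
      · rw [h3, if_neg (by norm_num)]
        exact dvd_trans (by norm_num) (dvd_pow_self _ hgp)
      · rw [if_pos h3]
        exact one_dvd _
  obtain ⟨z, hz⟩ := hE
  refine ⟨z * ∏ q ∈ Tk, (-ty K q), ?_⟩
  have hz' : (2 : ℂ) ^ {q : HOS k | ty K q = 0}.ncard *
      ((∏ p ∈ S, (1 - τ p) ^ g p : ℤ) : ℂ) = 2 ^ S.card * (z : ℂ) := by
    have h1 : ((2 ^ {q : HOS k | ty K q = 0}.ncard *
      ∏ p ∈ S, (1 - τ p) ^ g p : ℤ) : ℂ) = ((2 ^ S.card * z : ℤ) : ℂ) := by rw [hz]
    push_cast at h1 ⊢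
    exact h1
  have hL : ∏ χ ∈ odd c, LST Lf S T χ = (∏ χ ∈ odd c, Lf χ 0) *
      ((∏ p ∈ S, (1 - τ p) ^ g p : ℤ) : ℂ) *
      (((∏ q ∈ Tk, (-ty K q) : ℤ) : ℂ) * ∏ q ∈ Tk, ((nm q : ℂ) - (ty K q : ℂ))) := by
    unfold LST
    rw [Finset.prod_mul_distrib, Finset.prod_mul_distrib,
      Finset.prod_comm (s := odd c) (t := S), Finset.prod_comm (s := odd c) (t := T), hT1, hT2,
      Finset.prod_congr rfl fun p _ => hS1 p]
    push_cast
    ring
  rw [hL]
  push_cast
  push_cast at hz'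
  linear_combination (∏ χ ∈ odd c, Lf χ 0) * (classNumber k : ℂ) *
    (IsCMField.indexRealUnits K : ℂ) * (Units.torsionOrder K : ℂ) *
    ((∏ q ∈ Tk, (-(ty K q : ℂ))) * ∏ q ∈ Tk, ((nm q : ℂ) - (ty K q : ℂ))) * hz' +
    2 ^ S.card * (z : ℂ) * ((∏ q ∈ Tk, (-(ty K q : ℂ))) * ∏ q ∈ Tk, ((nm q : ℂ) - (ty K q : ℂ))) * hV

end Pool.Agent.RB
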